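import Mathlib
import Pool.Agent.H62W.Stm
import Pool.Agent.H62W.FLA
import Pool.Agent.H62W.FLB
import Pool.Agent.H62W.NFL
import Pool.Agent.H62W.MSQ
import Pool.Agent.H62W.REG
import Pool.Agent.H62W.VMA
import Pool.Agent.H62W.ORT
import Pool.Agent.H62W.NEC
import Pool.Agent.H62W.COL
import Pool.Agent.H62W.RIM
import Pool.Agent.H62W.OPP
import Pool.Agent.H62W.SUF

/-!
# Power series rings of weak global dimension one and countable interpolation

Let `A` be a ring (associative, with `1`, not necessarily commutative) and `A[[x]]` the power series ring with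
central variable. If `A[[x]]` has weak global dimension one then `A` is von Neumann regular and, for every `n`,
the ring `M_n(A)` has countable interpolation: if `a i * b j = 0` for two sequences of matrices then one matrix `E` has
`a i * E = 0` and `E * b j = b j` for all `i` and `j`. For regular rings this means that between an increasing sequence of
finitely generated submodules of `A ^ n` and a decreasing one above it there is always a finitely generated
submodule. Conversely, if `A` is regular, has this property for all `n` and is right or left `ℵ₀`-injective, then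
`A[[x]]` has weak global dimension one.

Idea of the proof. The weak global dimension of a ring `R` is at most one if and only if `a * b = 0` for square matrices over
`R` implies `a * E = 0`, `E * b = b` for some `E`. Necessity: one makes the `a i` and the `b j` orthogonal idempotents `q i`, `p j`
and uses the power series `∑ q i x ^ i`, `∑ p j x ^ j`. Sufficiency: over a regular ring one finds for a power series `b` orthogonal
idempotents `p k` and power series `z k` with constant terms `p k` such that `x ^ k z k` belongs to `b S[[x]]` and `b` is a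
convergent sum of multiples of the `x ^ k z k`. If `S` is right `ℵ₀`-injective there is an automorphism `φ` with constant term `1`
with `φ * p k = z k` for all `k`; now `a * b = 0` means that the countably many coefficients of `a * φ` kill the `p k`, and the
interpolation property for these elements of `S` gives `E` as a conjugate of a constant.
-/

set_option autoImplicit false

namespace Pool.Agent.Results.MP_d6aa4f_al.CountableInterpolation

open Finset MulOpposite

universe u

/-- A (left) module is flat: every relation `∑ r i • m i = 0` is trivial, that is `m i = ∑ j, c i j • y j` for some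
elements `y j` of the module and `c i j` of the ring with `∑ i, r i * c i j = 0` for all `j`. -/
def IsFlat (R M : Type u) [Ring R] [AddCommGroup M] [Module R M] : Prop :=
  ∀ (n : ℕ) (r : Fin n → R) (m : Fin n → M), ∑ i, r i • m i = 0 →
    ∃ (k : ℕ) (c : Fin n → Fin k → R) (y : Fin k → M),
      (∀ i, m i = ∑ j, c i j • y j) ∧ ∀ j, ∑ i, r i * c i j = 0

/-- The module has flat dimension at most one: there is an exact sequence `0 → ker π → F → M → 0` with flat
modules `F` and `ker π`. -/
def FlatDimLeOne (R M : Type u) [Ring R] [AddCommGroup M] [Module R M] : Prop :=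
  ∃ (F : Type u) (_ : AddCommGroup F) (_ : Module R F) (π : F →ₗ[R] M),
    Function.Surjective π ∧ IsFlat R F ∧ IsFlat R (LinearMap.ker π)

/-- The weak global dimension of `R` is one: all (left) modules have flat dimension at most one, and not all
modules are flat. -/
def WeakGlobalDimOne (R : Type u) [Ring R] : Prop :=
  (∀ (M : Type u) [AddCommGroup M] [Module R M], FlatDimLeOne R M) ∧
    ∃ (M : Type u) (_ : AddCommGroup M) (_ : Module R M), ¬ IsFlat R M

/-- `S` is von Neumann regular. -/
def Regular (S : Type u) [Ring S] : Prop := ∀ a : S, ∃ s, a * s * a = a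

/-- Countable interpolation: if `a i * b j = 0` for two sequences and all `i`, `j` then `a i * E = 0` and
`E * b j = b j` for one element `E` and all `i`, `j`. -/
def Interpolation (S : Type u) [Ring S] : Prop :=
  ∀ a b : ℕ → S, (∀ i j, a i * b j = 0) → ∃ E, (∀ i, a i * E = 0) ∧ ∀ j, E * b j = b j

/-- `S` is right `ℵ₀`-injective: every homomorphism of right modules `b i ↦ c i` from a countably generated right
ideal `∑ b i S` to `S` (it is well defined if every relation between the `b i` holds for the `c i`) is the left
multiplication by an element of `S`. -/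
def RightInjective (S : Type u) [Ring S] : Prop :=
  ∀ b c : ℕ → S, (∀ (s : Finset ℕ) (r : ℕ → S), ∑ i ∈ s, b i * r i = 0 → ∑ i ∈ s, c i * r i = 0) →
    ∃ x, ∀ i, x * b i = c i

/-- `S` is left `ℵ₀`-injective: every homomorphism of left modules `b i ↦ c i` from a countably generated left
ideal `∑ S b i` to `S` is the right multiplication by an element of `S`. -/
def LeftInjective (S : Type u) [Ring S] : Prop :=
  ∀ b c : ℕ → S, (∀ (s : Finset ℕ) (r : ℕ → S), ∑ i ∈ s, r i * b i = 0 → ∑ i ∈ s, r i * c i = 0) →
    ∃ x, ∀ i, b i * x = c i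

theorem rin_op {A : Type u} [Ring A] (h : LeftInjective A) : Pool.Agent.H62W.RIN Aᵐᵒᵖ := by
  intro b c hbc
  obtain ⟨x, hx⟩ := h (fun i => unop (b i)) (fun i => unop (c i)) (by
    intro s r hr
    have h1 := hbc s (fun i => op (r i)) (by
      apply unop_injective
      rw [unop_sum, unop_zero, ← hr]
      exact sum_congr rfl fun i _ => rfl)
    have h2 := congrArg unop h1
    rw [unop_sum, unop_zero] at h2
    rw [← h2]
    exact sum_congr rfl fun i _ => rfl)
  refine ⟨op x, fun i => ?_⟩
  apply unop_injective
  exact hx i

theorem wgd_of {A : Type u} [Ring A] [Nontrivial A] (h : Pool.Agent.H62W.SQ (PowerSeries A)) :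
    WeakGlobalDimOne (PowerSeries A) :=
  ⟨fun M _ _ => Pool.Agent.H62W.t_FLA (PowerSeries A) h M, Pool.Agent.H62W.t_NFL A⟩

theorem ip_of {A : Type u} [Ring A] (h1 : Regular A) (h : Pool.Agent.H62W.SQ (PowerSeries A)) (n : ℕ) :
    Interpolation (Matrix (Fin n) (Fin n) A) :=
  Pool.Agent.H62W.t_NEC Pool.Agent.H62W.t_ORT _ (Pool.Agent.H62W.t_VMA A h1 n) ((Pool.Agent.H62W.t_MSQ A).1 h n)

theorem sq_right {A : Type u} [Ring A] (h1 : Regular A) (h2 : RightInjective A)
    (h3 : ∀ n : ℕ, Interpolation (Matrix (Fin n) (Fin n) A)) : Pool.Agent.H62W.SQ (PowerSeries A) :=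
  (Pool.Agent.H62W.t_MSQ A).2 fun n => Pool.Agent.H62W.t_SUF _ (Pool.Agent.H62W.t_VMA A h1 n)
    (Pool.Agent.H62W.t_RIM Pool.Agent.H62W.t_COL A h1 h2 n) (h3 n)

theorem sq_left {A : Type u} [Ring A] (h1 : Regular A) (h2 : LeftInjective A)
    (h3 : ∀ n : ℕ, Interpolation (Matrix (Fin n) (Fin n) A)) : Pool.Agent.H62W.SQ (PowerSeries A) := by
  obtain ⟨o1, o2, o3, o4⟩ := Pool.Agent.H62W.t_OPP.{u}
  refine (Pool.Agent.H62W.t_MSQ A).2 fun n => o1 _ ?_
  refine Pool.Agent.H62W.t_SUF _ (o3 _ (Pool.Agent.H62W.t_VMA A h1 n)) (o4 A n ?_) (o2 _ (h3 n))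
  exact Pool.Agent.H62W.t_RIM Pool.Agent.H62W.t_COL Aᵐᵒᵖ (o3 _ h1) (rin_op h2) n

/-- Let `A` be a nonzero ring. (1) If `A[[x]]` has weak global dimension one, then `A` is von Neumann regular and the
rings `M_n(A)` have countable interpolation. (2) If `A` is right or left `ℵ₀`-injective, the converse holds. -/
theorem result (A : Type u) [Ring A] [Nontrivial A] :
    (WeakGlobalDimOne (PowerSeries A) →
      Regular A ∧ ∀ n : ℕ, Interpolation (Matrix (Fin n) (Fin n) A)) ∧
    (RightInjective A ∨ LeftInjective A →
      (WeakGlobalDimOne (PowerSeries A) ↔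
        Regular A ∧ ∀ n : ℕ, Interpolation (Matrix (Fin n) (Fin n) A))) := by
  have h1 : WeakGlobalDimOne (PowerSeries A) →
      Regular A ∧ ∀ n : ℕ, Interpolation (Matrix (Fin n) (Fin n) A) := by
    intro h
    have hsq : Pool.Agent.H62W.SQ (PowerSeries A) := Pool.Agent.H62W.t_FLB (PowerSeries A) h.1
    have hr : Regular A := Pool.Agent.H62W.t_REG A hsq
    exact ⟨hr, ip_of hr hsq⟩
  refine ⟨h1, fun hi => ⟨h1, ?_⟩⟩
  rintro ⟨hr, hip⟩
  rcases hi with hi | hi
  · exact wgd_of (sq_right hr hi hip)
  · exact wgd_of (sq_left hr hi hip)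

end Pool.Agent.Results.MP_d6aa4f_al.CountableInterpolation
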